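import Pool.Agent.Helper34.QA.Stmts

set_option autoImplicit false

namespace Pool.Agent.Helper51.QA

open Filter Topology MeasureTheory Pool.Agent.Helper34.QA Pool.Agent.Helper31.BQ

universe u

theorem g_abs_le {K : Type*} [TopologicalSpace K] {g : K → ℝ} {F : ℕ → C(K, ℝ)} {R : ℝ}
    (hF : ∀ n x, |F n x| ≤ R) (hlim : ∀ x, Tendsto (fun n => F n x) atTop (𝓝 (g x))) (x : K) :
    |g x| ≤ R :=
  le_of_tendsto (hlim x).abs (Eventually.of_forall fun n => hF n x)

theorem cor_half (h1 : ST_GB.{u}) (h2 : ST_CON.{u}) (h3 : ST_HJ.{u}) (h4 : ST_LUS.{u})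
    (V : Type u) [AddCommGroup V] [Module ℝ V] [TopologicalSpace V]
    [IsTopologicalAddGroup V] [ContinuousSMul ℝ V] [T2Space V] [LocallyConvexSpace ℝ V]
    (X : Set V) (hX : IsCompact X) (hcX : Convex ℝ X) [MeasurableSpace X] [BorelSpace X]
    (μ : Measure X) (hμ : IsProbabilityMeasure μ) (hr : μ.Regular) (b : X)
    (hb : ∀ ℓ : V →L[ℝ] ℝ, ℓ (b : V) = ∫ x : X, ℓ (x : V) ∂μ)
    (g : X → ℝ) (F : ℕ → C(X, ℝ)) (R : ℝ) (hg : IsAffineOn X g) (hF : ∀ n x, |F n x| ≤ R)
    (hlim : ∀ x, Tendsto (fun n => F n x) atTop (𝓝 (g x))) : g b ≤ ∫ x, g x ∂μ := by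
  by_contra hcon
  have hlt : ∫ x, g x ∂μ < g b := not_le.1 hcon
  obtain ⟨δ, hδ, hδe⟩ : ∃ δ : ℝ, 0 < δ ∧ g b - ∫ x, g x ∂μ = 2 * δ :=
    ⟨(g b - ∫ x, g x ∂μ) / 2, by linarith, by ring⟩
  have : CompactSpace X := isCompact_iff_compactSpace.1 hX
  have hR : ∀ x, |g x| ≤ R := g_abs_le hF hlim
  have hR0 : 0 ≤ R := (abs_nonneg _).trans (hR b)
  have hgm : Measurable g := by
    refine measurable_of_tendsto_metrizable (f := fun n x => F n x) (fun n => ?_)
      (tendsto_pi_nhds.2 hlim)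
    exact (F n).continuous.measurable
  have hint : Integrable g μ :=
    Integrable.of_bound hgm.aestronglyMeasurable R (Eventually.of_forall fun x => by
      rw [Real.norm_eq_abs]; exact hR x)
  obtain ⟨β, hβu, hβl, hβa⟩ := h1 V X hX hcX μ hμ b hb
  obtain ⟨P, hPm, hP0, hP⟩ := h3 X μ
    (fun B => μ.real B * g (β B) - ∫ x in B, g x ∂μ) (2 * R)
    (by
      intro A hA
      have e1 : |μ.real A * g (β A)| ≤ R * μ.real A := by
        rw [abs_mul, abs_of_nonneg measureReal_nonneg, mul_comm]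
        exact mul_le_mul_of_nonneg_right (hR _) measureReal_nonneg
      have e2 : |∫ x in A, g x ∂μ| ≤ R * μ.real A := by
        rw [← Real.norm_eq_abs]
        refine norm_setIntegral_le_of_norm_le_const (measure_lt_top μ A) ?_
        intro x _
        rw [Real.norm_eq_abs]
        exact hR x
      have e3 := abs_sub (μ.real A * g (β A)) (∫ x in A, g x ∂μ)
      show |μ.real A * g (β A) - ∫ x in A, g x ∂μ| ≤ 2 * R * μ.real A
      linarith)
    (by
      intro A B hA hB hAB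
      show μ.real (A ∪ B) * g (β (A ∪ B)) - ∫ x in A ∪ B, g x ∂μ =
        (μ.real A * g (β A) - ∫ x in A, g x ∂μ) + (μ.real B * g (β B) - ∫ x in B, g x ∂μ)
      rw [hβa g hg A B hA hB hAB, setIntegral_union hAB hB hint.integrableOn hint.integrableOn]
      ring)
    δ
    (by
      show δ * μ.real Set.univ <
        μ.real Set.univ * g (β Set.univ) - ∫ x in Set.univ, g x ∂μ
      rw [hβu, probReal_univ, setIntegral_univ]
      linarith)
  obtain ⟨A, hAP, hAc, hA0, ⟨α, hα⟩, hsup⟩ := h4 X μ inferInstance hr g hgm P hPm hP0 (δ / 4)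
    (by positivity)
  refine h2 V X hX hcX μ hμ β hβl g F hg hlim A α δ hAc hδ hA0 hα hsup ?_
  intro B hBA hB hB0
  have e1 := hP B (hBA.trans hAP) hB
  have hBpos : 0 < μ.real B := by
    rw [measureReal_def, ENNReal.toReal_pos_iff]
    exact ⟨pos_iff_ne_zero.2 hB0, measure_lt_top μ B⟩
  have e2 : (α - δ / 4) * μ.real B ≤ ∫ x in B, g x ∂μ := by
    have e3 : ∫ x in B, (α - δ / 4) ∂μ = (α - δ / 4) * μ.real B := by
      rw [setIntegral_const, smul_eq_mul, mul_comm]
    rw [← e3]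
    refine setIntegral_mono_on (integrableOn_const (measure_ne_top μ B)) hint.integrableOn hB ?_
    intro x hx
    have := (abs_le.1 (hα x (hBA hx))).1
    linarith
  have e4 : μ.real B * (α + 3 * δ / 4) ≤ μ.real B * g (β B) := by
    have e5 : δ * μ.real B ≤ μ.real B * g (β B) - ∫ x in B, g x ∂μ := e1
    nlinarith
  exact le_of_mul_le_mul_left e4 hBpos

theorem st_COR (h1 : ST_GB.{u}) (h2 : ST_CON.{u}) (h3 : ST_HJ.{u}) (h4 : ST_LUS.{u}) :
    ST_COR.{u} := by
  intro V _ _ _ _ _ _ _ X hX hcX _ _ μ hμ hr b hb g F R hg hF hlim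
  refine le_antisymm ?_ (cor_half h1 h2 h3 h4 V X hX hcX μ hμ hr b hb g F R hg hF hlim)
  have hneg := cor_half h1 h2 h3 h4 V X hX hcX μ hμ hr b hb (fun x => -g x) (fun n => -F n) R
    (by
      intro x y z t ht ht' hz
      have := hg x y z t ht ht' hz
      show -g z = t • (-g x) + (1 - t) • (-g y)
      rw [this]
      simp only [smul_eq_mul]
      ring)
    (by
      intro n x
      rw [ContinuousMap.neg_apply, abs_neg]
      exact hF n x)
    (by
      intro x
      simpa only [ContinuousMap.neg_apply] using (hlim x).neg)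
  rw [integral_neg] at hneg
  linarith

end Pool.Agent.Helper51.QA
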